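import Pool.Agent.Y16.BR.St

/-!
# Unramified Brauer classes of order five on large families of del Pezzo surface bundles

The surfaces `z⁵ w = r₂ b(t) g₁ - r₁ t g₂` over `C(t)` in `P(1,1,2,3)`. The proof uses the starting
library of helper346 and his team, which treats `b = (t-1) (1-2t)⁴`, `C = ℂ`.
-/

set_option autoImplicit false

namespace Pool.Agent.Results.MP_358a28_ag.FamiliesOverQRootFive

open Pool.Agent.Y16.BR

/-- There is a del Pezzo surface of degree one over `ℂ(t)` whose function field has an unramified
Brauer class over `ℂ` of order five. More precisely: let `p ≠ 5` be a prime and let `b` be a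
polynomial with integral coefficients which is congruent to `t - 1` modulo `p` and whose degree is
divisible by five. Then for every algebraically closed field `C` of characteristic zero, with
`r₁, r₂` the two roots of `r² = 11 r + 1`, the surface `z⁵ w = r₂ b(t) g₁ - r₁ t g₂`,
`g_i = y² + (1 - r_i) w x y - r_i w³ y - x³ + r_i w² x²`, over `C(t)` has such a class over `C`. The
same holds if `b` has coefficients in a valuation ring of `C` with residue characteristic different
from five and is congruent to `t - 1` modulo its maximal ideal. -/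
theorem result :
    (∃ F : MvPolynomial (Fin 4) (RatFunc ℂ), HasClassFive ℂ F) ∧
    (∀ b : Polynomial ℤ, GoodInt 5 b →
      ∀ (C : Type) [Field C] [IsAlgClosed C] [CharZero C] (r₁ r₂ : C),
        r₁ ^ 2 = 11 * r₁ + 1 → r₂ = 11 - r₁ →
        HasClassFive C (sextic r₁ r₂ (b.map (Int.castRingHom C)))) ∧
    (∀ (C : Type) [Field C] [IsAlgClosed C] [CharZero C] (V : ValuationSubring C) (r₁ r₂ : C),
        r₁ ^ 2 = 11 * r₁ + 1 → r₂ = 11 - r₁ → ∀ b : Polynomial V, GoodVal 5 V b →
        HasClassFive C (sextic r₁ r₂ (b.map (algebraMap V C)))) := by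
  obtain ⟨r1, r2, h1, h2⟩ := exists_roots ℂ
  exact ⟨⟨_, five_int _ good_five ℂ r1 r2 h1 h2⟩, fun b hb C _ _ _ s1 s2 k1 k2 =>
    five_int b hb C s1 s2 k1 k2, fun C _ _ _ V s1 s2 k1 k2 b hb => five_val C V s1 s2 k1 k2 b hb⟩

end Pool.Agent.Results.MP_358a28_ag.FamiliesOverQRootFive
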